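import Pool.Agent.Y885.MU6

/-!
# The Möbius function and shifted primes: every shift, up to very few elements of an arbitrary set which meets every
interval `[x, l x]`

Nothing is used besides Mathlib in the statement.

Used from the starting files: the estimate for correlations of the Möbius function whose shifts are corrected by few
elements of a set which meets every interval `[x, l x]` (`Pool.Agent.Y885.las_fine`), and the exponential sum bounds
for the Möbius function (Davenport's theorem with arbitrary powers of the logarithm).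
-/

set_option autoImplicit false

namespace Pool.Agent.Results.MP_0bfb7f_nt.ElementsOfAnySet

open Finset

lemma vm_log (B : ℕ) : ∃ N₀ : ℕ, ∀ N : ℕ, N₀ ≤ N → ∀ a h n : ℕ, a ≤ N ^ B → h ≤ N ^ B → n ≤ B * N →
    |ArithmeticFunction.vonMangoldt (a * n + h)| ≤ Real.log N ^ 2 := by
  obtain ⟨n1, h1⟩ := Pool.Agent.H373R2.T7.ev_L' ((B : ℝ) + 3)
  refine ⟨n1 + B + 3, fun N hN a h n ha hh hn => ?_⟩
  rw [abs_of_nonneg ArithmeticFunction.vonMangoldt_nonneg]
  refine ArithmeticFunction.vonMangoldt_le_log.trans ?_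
  have hL := h1 N (by omega)
  have hB0 : (0 : ℝ) ≤ B := Nat.cast_nonneg B
  have e1 : a * n + h ≤ N ^ (B + 3) := by
    calc a * n + h ≤ N ^ B * (B * N) + N ^ B := add_le_add (Nat.mul_le_mul ha hn) hh
      _ ≤ N ^ B * (N * N) + N ^ B * (N * N) := by
          apply add_le_add
          · exact Nat.mul_le_mul_left _ (Nat.mul_le_mul_right _ (by omega))
          · exact Nat.le_mul_of_pos_right _ (Nat.mul_pos (by omega) (by omega))
      _ = N ^ B * (2 * (N * N)) := by ring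
      _ ≤ N ^ B * (N * (N * N)) := Nat.mul_le_mul_left _ (Nat.mul_le_mul_right _ (by omega))
      _ = _ := by ring
  rcases Nat.eq_zero_or_pos (a * n + h) with h0 | h0
  · rw [h0]
    simp only [Nat.cast_zero, Real.log_zero]
    positivity
  · have e2 : Real.log ((a * n + h : ℕ) : ℝ) ≤ Real.log ((N ^ (B + 3) : ℕ) : ℝ) :=
      Real.log_le_log (by exact_mod_cast h0) (by exact_mod_cast e1)
    refine e2.trans ?_
    rw [Nat.cast_pow, Real.log_pow, pow_two]
    push_cast
    exact mul_le_mul_of_nonneg_right hL (by linarith)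

/-- For all `l ≥ 2`, `P ≥ 1`, `s`, `T` and `U` there is a constant `C` such that for all `H` and `B` there is an `N₀`
with the following property. Let `A` be an arbitrary set of integers which contains an element of every interval
`[x, l x]`, `x ≥ 1` (`C` and `N₀` do not depend on `A`), let `N ≥ N₀`, and let `0 ≤ h₀ ≤ B N` be an ARBITRARY integer
(for example `h₀ = 1`). For each of at most `log ^ T N` indices `j` let `α j ≥ 1`, let `a j i n + h j i` for `i < s` be
arbitrary linear forms with non-negative coefficients `≤ N ^ B`, and let `θ j : ℕ → ℂ` be an arbitrary function bounded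
by `1` (for example one index, `α = 1`, `s = 1`, `Λ(n)` and `θ = 1`). Then there is a set `S` of at most
`C (log log N) ^ 2` elements of `A`, all between `log ^ H N` and `N / log ^ H N` and with a sum `σ` divisible by `P`,
such that `|∑ n ≤ M, θ j n * (∏ i, Λ (a j i * n + h j i)) * μ (α j * n + h₀ + σ)| ≤ N / log ^ U N` for all `j` and all
`M ≤ B N / α j`. In particular `|∑ n ≤ M, Λ (n) * μ (n + 1 + σ)| ≤ N / log ^ U N` for all `M ≤ B N`. -/
theorem result (l P s T U : ℕ) (hl : 2 ≤ l) (hP : 1 ≤ P) : ∃ C : ℝ, ∀ H B : ℕ, ∃ N₀ : ℕ, ∀ A : Set ℕ,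
    (∀ x : ℕ, 1 ≤ x → ∃ a ∈ A, x ≤ a ∧ a ≤ l * x) → ∀ N : ℕ, N₀ ≤ N → ∀ h₀ : ℕ, h₀ ≤ B * N →
    ∀ L : ℕ, (L : ℝ) ≤ Real.log N ^ T → ∀ (α : Fin L → ℕ) (a h : Fin L → Fin s → ℕ) (θ : Fin L → ℕ → ℂ),
      (∀ j, 1 ≤ α j) → (∀ j i, a j i ≤ N ^ B ∧ h j i ≤ N ^ B) → (∀ j n, ‖θ j n‖ ≤ 1) →
    ∃ S : Finset ℕ, (∀ u ∈ S, u ∈ A ∧ Real.log N ^ H ≤ u ∧ (u : ℝ) ≤ N / Real.log N ^ H) ∧
      (S.card : ℝ) ≤ C * Real.log (Real.log N) ^ 2 ∧ P ∣ ∑ u ∈ S, u ∧
      ∀ j, ∀ M : ℕ, α j * M ≤ B * N →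
        ‖∑ n ∈ Icc 1 M, θ j n * (∏ i, (ArithmeticFunction.vonMangoldt (a j i * n + h j i) : ℂ)) *
          ((ArithmeticFunction.moebius (α j * n + (h₀ + ∑ u ∈ S, u)) : ℤ) : ℂ)‖ ≤ N / Real.log N ^ U := by
  obtain ⟨C, hC⟩ := Pool.Agent.Y885.las_fine l P (T + 2 * s) U hl hP Pool.Agent.H373R2.T7.muR Pool.Agent.Y885.fine_mu
  refine ⟨C, fun H B => ?_⟩
  obtain ⟨N₀, h0⟩ := hC H B
  obtain ⟨N₁, h1⟩ := vm_log B
  obtain ⟨N₂, h2⟩ := Pool.Agent.H373R2.T7.ev_L' 1
  refine ⟨N₀ + N₁ + N₂, fun A hA N hN h₀ hh₀ L hL α a h θ hα hah hθ => ?_⟩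
  have hL1 := h2 N (by omega)
  obtain ⟨S, g1, g2, g3, g4⟩ := h0 A hA N (by omega) h₀ hh₀ L (hL.trans (pow_le_pow_right₀ hL1 (by omega))) α
    (fun j n => θ j n * ∏ i, (ArithmeticFunction.vonMangoldt (a j i * n + h j i) : ℂ)) hα (by
      intro j n hn hnB
      have hnB' : n ≤ B * N := (Nat.le_mul_of_pos_left n (by have := hα j; omega)).trans hnB
      rw [norm_mul, norm_prod]
      have e1 : ∏ i, ‖(ArithmeticFunction.vonMangoldt (a j i * n + h j i) : ℂ)‖ ≤ ∏ _i : Fin s, Real.log N ^ 2 := by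
        apply prod_le_prod (fun _ _ => norm_nonneg _)
        intro i _
        rw [Complex.norm_real, Real.norm_eq_abs]
        exact h1 N (by omega) _ _ n (hah _ i).1 (hah _ i).2 hnB'
      rw [prod_const, card_univ, Fintype.card_fin, ← pow_mul] at e1
      calc _ ≤ 1 * Real.log N ^ (2 * s) := mul_le_mul (hθ _ _) e1 (prod_nonneg fun _ _ => norm_nonneg _) zero_le_one
        _ = Real.log N ^ (2 * s) := one_mul _
        _ ≤ _ := pow_le_pow_right₀ hL1 (by omega))
  refine ⟨S, g1, g2, g3, fun j M hM => ?_⟩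
  refine le_trans (le_of_eq ?_) (g4 j M hM)
  congr 1

end Pool.Agent.Results.MP_0bfb7f_nt.ElementsOfAnySet
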