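import Pool.Agent.V5helper23.KP.Univ

/-!
# The Möbius function, shifted by the members of ALL progressions with almost all differences, and ALL functions

For almost all differences `u` the following holds for EVERY arithmetic progression with the difference `u`, even of a
length which is only a power of `log N`, and EVERY function `g` bounded by a power of the logarithm, for example for the
von Mangoldt function `Λ`: the sums `∑ g(k) μ(k + y)` are small for all members `y` of the progression, up to few. The
exceptional set of differences depends neither on the progression nor on the function.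

Definitions used:
* `Pool.Agent.V5helper23.KP.Long`, `Pool.Agent.V5helper23.KP.Short`: the two kinds of families of patterns;
* `Pool.Agent.H373R2.T7.energy p n r`: the additive energy of order `p` of `r 1, ..., r n`: the number of solutions of
  `r (m 1) + ... + r (m p) = r (m' 1) + ... + r (m' p)`.

The proof: by the inequality of Cauchy and Schwarz the large spectrum of the differences of two members of the patterns
is thin (`Pool.Agent.V5helper23.KP.sum_near`, `Pool.Agent.V5helper23.KP.dif_law`); by the second moment method of the
starting files (`Pool.Agent.Y885.tl_probZ`) the shifts of the Möbius function by two members of a pattern are nearly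
orthogonal for almost all pairs; the rest is duality (`Pool.Agent.V5helper23.KP.many_pairs`).
-/

set_option autoImplicit false

namespace Pool.Agent.Results.MP_0bfb7f_nt.LineFamilies

open Finset
open Pool.Agent.V5helper23.KP (Long Short)

/-- The Möbius function on the integers, `0` at the integers `m ≤ 0`, with complex values. -/
noncomputable def mob (m : ℤ) : ℂ := if 1 ≤ m then ((ArithmeticFunction.moebius m.toNat : ℤ) : ℂ) else 0

open Classical in
/-- For EVERY function `g` with `|g(k)| ≤ log ^ T N` for `k ≤ N` all the numbers `y = c(w)`, `w ∈ S`, with at most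
`#S / log ^ U N` exceptions, have the property `|∑ k ≤ x, g(k) μ(k + y)| ≤ N / log ^ U N` for all `x ≤ N`. -/
def Good (T U N : ℕ) (c : ℤ → ℤ) (S : Finset ℤ) : Prop :=
  ∀ g : ℕ → ℂ, (∀ k ∈ Icc 1 N, ‖g k‖ ≤ Real.log N ^ T) →
    ((S.filter (fun w => ∃ x ≤ N, (N : ℝ) / Real.log N ^ U < ‖∑ k ∈ Icc 1 x, g k * mob (k + c w)‖)).card : ℝ) ≤
      S.card / Real.log N ^ U

open Classical in
/-- The number of the `1 ≤ m ≤ n` for which there is ANY integer `a` such that the pattern `a + b(w) + r(m) w`, `w ∈ S`,
lies in `[-N, N]` and does not have the property `Good`. -/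
noncomputable def exceptions (T U N n : ℕ) (b : ℤ → ℤ) (r : ℕ → ℤ) (S : Finset ℤ) : ℕ :=
  ((Icc 1 n).filter (fun m => ∃ a : ℤ, (∀ w ∈ S, |a + b w + r m * w| ≤ N) ∧
    ¬ Good T U N (fun w => a + b w + r m * w) S)).card

lemma mob_eq (m : ℤ) : mob m = Pool.Agent.H373R2.T7.exI (fun n => ((Pool.Agent.H373R2.T7.muR n : ℝ) : ℂ)) m := by
  unfold mob Pool.Agent.H373R2.T7.exI
  split_ifs
  · unfold Pool.Agent.H373R2.T7.muR
    push_cast
    rfl
  · rfl

/-- Let `T` and `U` be fixed. There is a constant `B`, and for all `C` and `p` there is a constant `B'`, such that the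
following holds for every large `N`.

Consider the patterns `a + b(w) + r(m) w`, `w ∈ S`, for `1 ≤ m ≤ n`, where the translation `a` and the function `b` are
arbitrary and the differences `r(m)` and the set `S` of integers are of one of the following kinds: either (`Long`) the
differences are the elements of an interval of `n ≥ log ^ B' N` integers, and `S`, with at least `log ^ B N` elements, is
a subset of relative density at least `1 / log ^ C N` of an interval of at least `N / (n log ^ C N)` integers; or
(`Short`) the differences `|r(m)| ≤ N` are arbitrary integers of nearly minimal additive energy of order `p` (by the last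
assertion one may take the values `r(m) = f(m)` of any nonconstant polynomial, `n` at least `(N / log ^ C N) ^ (1 / deg f)`)
and `S` has at least `log ^ B N` elements and diameter at most `2 log ^ C N`. For `b = 0`, `S = {1, ..., l}` the patterns
are the arithmetic progressions with `l` terms and the difference `r(m)`; `l` may be as small as `log ^ B N`.

For all but at most `n / log ^ U N` of the `m ≤ n` the following holds for EVERY integer `a` for which the pattern lies in
`[-N, N]` and EVERY function `g` with `|g(k)| ≤ log ^ T N` for `k ≤ N`, for example `g = Λ` (`T ≥ 1`): all the members `y`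
of the pattern, with at most `#S / log ^ U N` exceptions, satisfy `|∑ k ≤ x, g(k) μ(k + y)| ≤ N / log ^ U N` for all
`x ≤ N`. -/
theorem result (T U : ℕ) :
    (∃ B : ℕ, ∀ C p : ℕ, ∃ B' N₀ : ℕ, ∀ N : ℕ, N₀ ≤ N →
      ∀ (n : ℕ) (r : ℕ → ℤ) (S : Finset ℤ), (Long B B' C N n r S ∨ Short p B C N n r S) → ∀ b : ℤ → ℤ,
      (exceptions T U N n b r S : ℝ) ≤ n / Real.log N ^ U) ∧
    (∀ f : Polynomial ℤ, 1 ≤ f.natDegree → ∃ p : ℕ, ∀ C : ℕ, ∃ N₀ : ℕ, ∀ N : ℕ, N₀ ≤ N → ∀ n : ℕ,
      (N : ℝ) ≤ Real.log N ^ C * (n : ℝ) ^ f.natDegree →
      (Pool.Agent.H373R2.T7.energy p n (fun m => f.eval (m : ℤ)) : ℝ) * N ≤ Real.log N ^ (C + 1) * (n : ℝ) ^ (2 * p)) := by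
  classical
  refine ⟨?_, Pool.Agent.V5helper23.KP.poly_energy⟩
  obtain ⟨B, hB⟩ := Pool.Agent.V5helper23.KP.univ_core Pool.Agent.H373R2.T7.muR Pool.Agent.Y885.fine_mu T U
  refine ⟨B, fun C p => ?_⟩
  obtain ⟨B', X₀, h⟩ := hB C p
  refine ⟨B', X₀, fun N hN n r S hfam b => ?_⟩
  refine h N (by omega) n r S hfam b _ (filter_subset _ _) ?_
  intro m hm
  rw [mem_filter] at hm
  obtain ⟨_, a, g1, g2⟩ := hm
  unfold Good at g2
  push Not at g2
  obtain ⟨g, g3, g4⟩ := g2
  refine ⟨a, g, g1, g3, _, filter_subset _ _, g4, ?_⟩
  intro w hw
  rw [mem_filter] at hw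
  obtain ⟨_, x, g5, g6⟩ := hw
  refine ⟨x, g5, ?_⟩
  simp only [mob_eq] at g6
  exact g6

end Pool.Agent.Results.MP_0bfb7f_nt.LineFamilies
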