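import Pool.Agent.Y885.MU6

/-!
# The Möbius function and shifted primes: the shift is a random sum with up to two fifths of the scales missing

Nothing is used besides Mathlib in the statement.

Used from the starting files: the estimate for correlations of the Möbius function whose shifts are random sums
(`Pool.Agent.Y885.rs_fine`), and the exponential sum bounds for the Möbius function (Davenport's theorem with arbitrary
powers of the logarithm).
-/

set_option autoImplicit false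

namespace Pool.Agent.Results.MP_0bfb7f_nt.RandomSumShifts

open Finset

/-- The Möbius function on the integers, `0` at the integers `m ≤ 0`, with complex values. -/
noncomputable def mob (m : ℤ) : ℂ := if 1 ≤ m then ((ArithmeticFunction.moebius m.toNat : ℤ) : ℂ) else 0

/-- `|∑ n ≤ x, θ l n * (∏ i, Λ (a l i * n + h l i)) * μ (α l * n + z)| ≤ ε` for all `l` and all `x ≤ X / α l`. -/
def Small (X : ℕ) (ε : ℝ) {s L : ℕ} (α : Fin L → ℕ) (a h : Fin L → Fin s → ℕ) (θ : Fin L → ℕ → ℂ) (z : ℤ) : Prop :=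
  ∀ l, ∀ x : ℕ, α l * x ≤ X →
    ‖∑ n ∈ Icc 1 x, θ l n * (∏ i, (ArithmeticFunction.vonMangoldt (a l i * n + h l i) : ℂ)) * mob (α l * n + z)‖ ≤ ε

/-- The set `J` of scales below `k` is rich: it contains more than three fifths of all the scales, more than one half
of the `m` lowest scales, and a positive proportion of the `m` highest scales (the last two conditions are
void for `m ≤ D log k`). -/
structure Rich (δ : ℝ) (D k : ℕ) (J : Finset ℕ) : Prop where
  lt : ∀ j ∈ J, j < k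
  all : (3 / 5 + δ) * k ≤ (J.card : ℝ)
  low : ∀ m ≤ k, (1 / 2 + δ) * m ≤ ((J.filter fun j => j < m).card : ℝ) + D * Real.log k
  high : ∀ m ≤ k, δ * m ≤ ((J.filter fun j => k - m ≤ j).card : ℝ) + D * Real.log k

open Classical in
/-- The probability of the event `E` if `x 0, ..., x (k - 1)` are independent random integers, where `x j` takes
its values in the finite set `s j`, and the value `v` with the probability `p j v`. -/
noncomputable def Prob (k : ℕ) (s : ℕ → Finset ℤ) (p : ℕ → ℤ → ℝ) (E : (Fin k → ℤ) → Prop) : ℝ :=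
  ∑ x ∈ Fintype.piFinset (fun j : Fin k => s j), if E x then ∏ j : Fin k, p j (x j) else 0

lemma vm_log (B : ℕ) : ∃ N₀ : ℕ, ∀ N : ℕ, N₀ ≤ N → ∀ a h n : ℕ, a ≤ N ^ B → h ≤ N ^ B → n ≤ B * N →
    |ArithmeticFunction.vonMangoldt (a * n + h)| ≤ Real.log N ^ 2 := by
  obtain ⟨n1, h1⟩ := Pool.Agent.H373R2.T7.ev_L' ((B : ℝ) + 3)
  refine ⟨n1 + B + 3, fun N hN a h n ha hh hn => ?_⟩
  rw [abs_of_nonneg ArithmeticFunction.vonMangoldt_nonneg]
  refine ArithmeticFunction.vonMangoldt_le_log.trans ?_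
  have hL := h1 N (by omega)
  have hB0 : (0 : ℝ) ≤ B := Nat.cast_nonneg B
  have e1 : a * n + h ≤ N ^ (B + 3) := by
    calc a * n + h ≤ N ^ B * (B * N) + N ^ B := add_le_add (Nat.mul_le_mul ha hn) hh
      _ ≤ N ^ B * (N * N) + N ^ B * (N * N) := by
          apply add_le_add
          · exact Nat.mul_le_mul_left _ (Nat.mul_le_mul_right _ (by omega))
          · exact Nat.le_mul_of_pos_right _ (Nat.mul_pos (by omega) (by omega))
      _ = N ^ B * (2 * (N * N)) := by ring
      _ ≤ N ^ B * (N * (N * N)) := Nat.mul_le_mul_left _ (Nat.mul_le_mul_right _ (by omega))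
      _ = _ := by ring
  rcases Nat.eq_zero_or_pos (a * n + h) with h0 | h0
  · rw [h0]
    simp only [Nat.cast_zero, Real.log_zero]
    positivity
  · have e2 : Real.log ((a * n + h : ℕ) : ℝ) ≤ Real.log ((N ^ (B + 3) : ℕ) : ℝ) :=
      Real.log_le_log (by exact_mod_cast h0) (by exact_mod_cast e1)
    refine e2.trans ?_
    rw [Nat.cast_pow, Real.log_pow, pow_two]
    push_cast
    exact mul_le_mul_of_nonneg_right hL (by linarith)

/-- Let `b ≥ 2`, `B ≥ 1`, `D`, `s`, `T`, `U`, `η > 0` and `δ > 0` be fixed, let `k` be large, and let `J` be an arbitrary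
rich set of scales below `k`. Let `x 0, ..., x (k - 1)` be arbitrary independent random integers with `|x j| ≤ B b ^ j`
such that, for all `j` in `J`, no interval of the length `b ^ j / B` contains `x j` with a probability larger than
`1 - η` (nothing is assumed for the other `j`: these `x j` may be constants). Let `c` be an arbitrary integer with
`|c| ≤ B b ^ k`. For each of at most `k ^ T` indices `l` let `α l ≥ 1`, let `a l i n + h l i` for `i < s` be arbitrary
linear forms with non-negative coefficients `≤ b ^ (k B)`, and let `θ l : ℕ → ℂ` be an arbitrary function bounded by `1`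
(for example one index, `α = 1`, `s = 1`, `Λ(n)` and `θ = 1`). Then, with a probability of at least `1 - 1 / k ^ U`, the
shift `z = c + x 0 + ... + x (k - 1)` satisfies
`|∑ n ≤ x, θ l n * (∏ i, Λ (a l i * n + h l i)) * μ (α l * n + z)| ≤ b ^ k / k ^ U` for all `l` and all
`x ≤ B b ^ k / α l`. -/
theorem result (b B D s T U : ℕ) (hb : 2 ≤ b) (hB : 1 ≤ B) (η δ : ℝ) (hη : 0 < η) (hδ : 0 < δ) :
    ∃ k₀ : ℕ, ∀ k : ℕ, k₀ ≤ k → ∀ J : Finset ℕ, Rich δ D k J →
      ∀ (σ : ℕ → Finset ℤ) (p : ℕ → ℤ → ℝ),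
      (∀ j < k, (∀ x ∈ σ j, 0 ≤ p j x ∧ |x| ≤ (B : ℤ) * (b : ℤ) ^ j) ∧ ∑ x ∈ σ j, p j x = 1) →
      (∀ j ∈ J, ∀ y : ℤ, ∑ x ∈ (σ j).filter (fun x => y ≤ x ∧ (B : ℤ) * (x - y) ≤ (b : ℤ) ^ j), p j x ≤ 1 - η) →
      ∀ c : ℤ, |c| ≤ (B : ℤ) * (b : ℤ) ^ k →
      ∀ L : ℕ, L ≤ k ^ T → ∀ (α : Fin L → ℕ) (a h : Fin L → Fin s → ℕ) (θ : Fin L → ℕ → ℂ),
        (∀ l, 1 ≤ α l) → (∀ l i, a l i ≤ b ^ (k * B) ∧ h l i ≤ b ^ (k * B)) → (∀ l n, ‖θ l n‖ ≤ 1) →
        Prob k σ p (fun x => ¬ Small (B * b ^ k) ((b : ℝ) ^ k / (k : ℝ) ^ U) α a h θ (c + ∑ j, x j)) ≤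
          1 / (k : ℝ) ^ U := by
  classical
  obtain ⟨k₀, h0⟩ := Pool.Agent.Y885.rs_fine b B D (T + 4 * s) U hb hB η δ hη hδ Pool.Agent.H373R2.T7.muR
    Pool.Agent.Y885.fine_mu
  obtain ⟨N₁, h1⟩ := vm_log B
  refine ⟨k₀ + N₁ + b + 1, fun k hk J hJ σ p hs hp c hc L hL α a h θ hα hah hθ => ?_⟩
  have hk1 : (1 : ℝ) ≤ (k : ℝ) := by exact_mod_cast (by omega : 1 ≤ k)
  have hk0 : (0 : ℝ) < k := by linarith
  have hbk : k < b ^ k := Nat.lt_pow_self (by omega)
  have hlog : Real.log ((b ^ k : ℕ) : ℝ) ^ 2 ≤ (k : ℝ) ^ 4 := by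
    have e1 : Real.log ((b ^ k : ℕ) : ℝ) = k * Real.log b := by
      push_cast
      rw [Real.log_pow]
    have e2 : Real.log b ≤ k := by
      have : Real.log b ≤ b - 1 := Real.log_le_sub_one_of_pos (by exact_mod_cast (by omega : 0 < b))
      have : (b : ℝ) ≤ k := by exact_mod_cast (by omega : b ≤ k)
      linarith
    have e3 : 0 ≤ Real.log b := Real.log_natCast_nonneg b
    rw [e1]
    calc ((k : ℝ) * Real.log b) ^ 2 ≤ ((k : ℝ) * k) ^ 2 := by gcongr
      _ = (k : ℝ) ^ 4 := by ring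
  have h2 := h0 k (by omega) J σ p c ⟨hJ.lt, hJ.low, hJ.high, hJ.all⟩ hs hp hc L
    (hL.trans (Nat.pow_le_pow_right (by omega) (by omega))) α
    (fun l n => θ l n * ∏ i, (ArithmeticFunction.vonMangoldt (a l i * n + h l i) : ℂ)) hα (by
      intro l n hn hnB
      have hnB' : n ≤ B * b ^ k := (Nat.le_mul_of_pos_left n (by have := hα l; omega)).trans hnB
      rw [norm_mul, norm_prod]
      have e1 : ∏ i, ‖(ArithmeticFunction.vonMangoldt (a l i * n + h l i) : ℂ)‖ ≤ ∏ _i : Fin s, (k : ℝ) ^ 4 := by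
        apply prod_le_prod (fun _ _ => norm_nonneg _)
        intro i _
        rw [Complex.norm_real, Real.norm_eq_abs]
        refine (h1 (b ^ k) (by omega) _ _ n ?_ ?_ hnB').trans hlog
        · rw [← pow_mul]; exact (hah _ i).1
        · rw [← pow_mul]; exact (hah _ i).2
      rw [prod_const, card_univ, Fintype.card_fin, ← pow_mul] at e1
      calc _ ≤ 1 * (k : ℝ) ^ (4 * s) := mul_le_mul (hθ _ _) e1 (prod_nonneg fun _ _ => norm_nonneg _) zero_le_one
        _ = (k : ℝ) ^ (4 * s) := one_mul _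
        _ ≤ _ := pow_le_pow_right₀ hk1 (by omega))
    (fun x => ¬ Small (B * b ^ k) ((b : ℝ) ^ k / (k : ℝ) ^ U) α a h θ (c + ∑ j, x j)) (Classical.decPred _)
    (fun x hx h3 => hx fun l N hN => by
      refine le_trans (le_of_eq ?_) (h3 l N hN)
      congr 1)
  refine le_trans (le_of_eq ?_) h2
  unfold Prob
  apply sum_congr rfl
  intro x _
  split_ifs <;> rfl

end Pool.Agent.Results.MP_0bfb7f_nt.RandomSumShifts
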