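import Pool.Agent.R459.Fam2
import Pool.Agent.TH823.Fam.Fam2

/-!
# The Möbius function and shifted primes: all the shifts near almost all members of arbitrary thin families of integers
of nearly minimal additive energy, for example of the values of a polynomial at the primes

The exponential sum bounds for the Möbius function (Davenport's theorem with arbitrary powers of the logarithm) and the
estimate for families of nearly minimal energy are from the starting files (`Pool.Agent.H373R2.T7`,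
`Pool.Agent.R459.Fam2`).
-/

set_option autoImplicit false

namespace Pool.Agent.Results.MP_0bfb7f_nt.ThinFamilies

open Finset

/-- The Möbius function on the integers, `0` at the integers `m ≤ 0`, with complex values. -/
noncomputable def mob (m : ℤ) : ℂ := if 1 ≤ m then ((ArithmeticFunction.moebius m.toNat : ℤ) : ℂ) else 0

/-- `|∑ n ≤ x, θ l n * (∏ i, Λ (a l i * n + h l i)) * μ (α l * n + z)| ≤ ε` for all `l` and all `x ≤ X / α l`. -/
def Small (X : ℕ) (ε : ℝ) {s L : ℕ} (α : Fin L → ℕ) (a h : Fin L → Fin s → ℕ) (θ : Fin L → ℕ → ℂ) (z : ℤ) : Prop :=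
  ∀ l, ∀ x : ℕ, α l * x ≤ X →
    ‖∑ n ∈ Icc 1 x, θ l n * (∏ i, (ArithmeticFunction.vonMangoldt (a l i * n + h l i) : ℂ)) * mob (α l * n + z)‖ ≤ ε

/-- The additive energy of order `p` of a finite family of integers `v i`: the number of solutions of
`v (a 1) + ... + v (a p) = v (b 1) + ... + v (b p)`. -/
noncomputable def energy (p : ℕ) {ι : Type} [Fintype ι] (v : ι → ℤ) : ℕ :=
  Nat.card {q : (Fin p → ι) × (Fin p → ι) // ∑ j, v (q.1 j) = ∑ j, v (q.2 j)}

open Classical in
/-- The number of the members `v i` of the family such that some integer `z` at a distance of at most `D` from `v i`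
does not have the property `P`. -/
noncomputable def exceptions {ι : Type} [Fintype ι] (v : ι → ℤ) (D : ℝ) (P : ℤ → Prop) : ℝ :=
  ((univ.filter fun i => ∃ z : ℤ, |((z - v i : ℤ) : ℝ)| ≤ D ∧ ¬ P z).card : ℝ)

/-- The weights for the parameters `N`, `B`, `T`: at most `log ^ T N` indices `l`, the coefficients `α l ≥ 1`,
arbitrary linear forms `a l i * n + h l i` with non-negative coefficients `≤ N ^ B`, and arbitrary functions `θ l`
bounded by `1`. -/
def Weights (N B T : ℕ) {s L : ℕ} (α : Fin L → ℕ) (a h : Fin L → Fin s → ℕ) (θ : Fin L → ℕ → ℂ) : Prop :=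
  (L : ℝ) ≤ Real.log N ^ T ∧ (∀ l, 1 ≤ α l) ∧ (∀ l i, a l i ≤ N ^ B ∧ h l i ≤ N ^ B) ∧ ∀ l n, ‖θ l n‖ ≤ 1

lemma vm_log (B : ℕ) : ∃ N₀ : ℕ, ∀ N : ℕ, N₀ ≤ N → ∀ a h n : ℕ, a ≤ N ^ B → h ≤ N ^ B → n ≤ B * N →
    |ArithmeticFunction.vonMangoldt (a * n + h)| ≤ Real.log N ^ 2 := by
  obtain ⟨n1, h1⟩ := Pool.Agent.H373R2.T7.ev_L' ((B : ℝ) + 3)
  refine ⟨n1 + B + 3, fun N hN a h n ha hh hn => ?_⟩
  rw [abs_of_nonneg ArithmeticFunction.vonMangoldt_nonneg]
  refine ArithmeticFunction.vonMangoldt_le_log.trans ?_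
  have hL := h1 N (by omega)
  have hB0 : (0 : ℝ) ≤ B := Nat.cast_nonneg B
  have e1 : a * n + h ≤ N ^ (B + 3) := by
    calc a * n + h ≤ N ^ B * (B * N) + N ^ B := add_le_add (Nat.mul_le_mul ha hn) hh
      _ ≤ N ^ B * (N * N) + N ^ B * (N * N) := by
          apply add_le_add
          · exact Nat.mul_le_mul_left _ (Nat.mul_le_mul_right _ (by omega))
          · exact Nat.le_mul_of_pos_right _ (Nat.mul_pos (by omega) (by omega))
      _ = N ^ B * (2 * (N * N)) := by ring
      _ ≤ N ^ B * (N * (N * N)) := Nat.mul_le_mul_left _ (Nat.mul_le_mul_right _ (by omega))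
      _ = _ := by ring
  rcases Nat.eq_zero_or_pos (a * n + h) with h0 | h0
  · rw [h0]
    simp only [Nat.cast_zero, Real.log_zero]
    positivity
  · have e2 : Real.log ((a * n + h : ℕ) : ℝ) ≤ Real.log ((N ^ (B + 3) : ℕ) : ℝ) :=
      Real.log_le_log (by exact_mod_cast h0) (by exact_mod_cast e1)
    refine e2.trans ?_
    rw [Nat.cast_pow, Real.log_pow, pow_two]
    push_cast
    exact mul_le_mul_of_nonneg_right hL (by linarith)

theorem general (s p A B C T U : ℕ) : ∃ N₀ : ℕ, ∀ N : ℕ, N₀ ≤ N → ∀ (ι : Type) [Fintype ι] (v : ι → ℤ),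
    (∀ i, |v i| ≤ B * N) → (energy p v : ℝ) * N ≤ Real.log N ^ C * (Fintype.card ι : ℝ) ^ (2 * p) →
    ∀ (L : ℕ) (α : Fin L → ℕ) (a h : Fin L → Fin s → ℕ) (θ : Fin L → ℕ → ℂ), Weights N B T α a h θ →
      exceptions v (Real.log N ^ A) (Small (B * N) (N / Real.log N ^ U) α a h θ) ≤
        Fintype.card ι / Real.log N ^ U := by
  classical
  obtain ⟨N₁, h1⟩ := vm_log B
  obtain ⟨N₂, h2⟩ := Pool.Agent.H373R2.T7.ev_L' 1
  obtain ⟨N₀, h0⟩ := Pool.Agent.R459.fam_near_fin Pool.Agent.H373R2.T7.muC Pool.Agent.H373R2.T7.muC_norm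
    Pool.Agent.H373R2.T7.sup_muC p B C (T + 2 * s) A U
  refine ⟨N₀ + N₁ + N₂, fun N hN ι _ v hv hE L α a h θ hw => ?_⟩
  obtain ⟨hL, hα, hah, hθ⟩ := hw
  have hL1 := h2 N (by omega)
  unfold exceptions
  refine h0 N (by omega) ι v hv hE L (hL.trans (pow_le_pow_right₀ hL1 (by omega)))
    (fun l => if hl : l < L then α ⟨l, hl⟩ else 1)
    (fun l n => if hl : l < L then θ ⟨l, hl⟩ n *
      ∏ i, (ArithmeticFunction.vonMangoldt (a ⟨l, hl⟩ i * n + h ⟨l, hl⟩ i) : ℂ) else 0) ?_ ?_ _ ?_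
  · intro l hl
    simp only [hl, dif_pos]
    exact hα _
  · intro l hl n hn hnB
    simp only [hl, dif_pos] at hnB ⊢
    have hnB' : n ≤ B * N := (Nat.le_mul_of_pos_left n (by have := hα ⟨l, hl⟩; omega)).trans hnB
    rw [norm_mul, norm_prod]
    have e1 : ∏ i, ‖(ArithmeticFunction.vonMangoldt (a ⟨l, hl⟩ i * n + h ⟨l, hl⟩ i) : ℂ)‖ ≤
        ∏ _i : Fin s, Real.log N ^ 2 := by
      apply prod_le_prod (fun _ _ => norm_nonneg _)
      intro i _
      rw [Complex.norm_real, Real.norm_eq_abs]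
      exact h1 N (by omega) _ _ n (hah _ i).1 (hah _ i).2 hnB'
    rw [prod_const, card_univ, Fintype.card_fin, ← pow_mul] at e1
    calc _ ≤ 1 * Real.log N ^ (2 * s) := mul_le_mul (hθ _ _) e1 (prod_nonneg fun _ _ => norm_nonneg _) zero_le_one
      _ = Real.log N ^ (2 * s) := one_mul _
      _ ≤ _ := pow_le_pow_right₀ hL1 (by omega)
  · intro i hi
    obtain ⟨z, hz, hbad⟩ := (mem_filter.1 hi).2
    refine ⟨z - v i, hz, ?_⟩
    unfold Small at hbad
    push Not at hbad
    obtain ⟨l, x, hx, hlt⟩ := hbad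
    refine ⟨l, l.2, x, ?_, lt_of_lt_of_eq hlt ?_⟩
    · simp only [l.2, dif_pos]
      exact hx
    · simp only [l.2, dif_pos]
      congr 1
      apply sum_congr rfl
      intro n _
      rw [show v i + (z - v i) = z by ring]
      push_cast
      rfl

/-- the energy of a subfamily -/
lemma energy_sub (p x : ℕ) (s : ℕ → ℤ) (M : Finset ℕ) (hM : M ⊆ Icc 1 x) :
    energy p (fun m : {m // m ∈ M} => s m) ≤ Pool.Agent.H373R2.T7.energy p x s := by
  classical
  unfold energy Pool.Agent.H373R2.T7.energy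
  rw [Nat.card_eq_fintype_card, Fintype.card_subtype]
  apply card_le_card_of_injOn (fun q => (fun j => ((q.1 j : {m // m ∈ M}) : ℕ), fun j => ((q.2 j : {m // m ∈ M}) : ℕ)))
  · intro q hq
    rw [mem_coe, mem_filter] at hq
    rw [mem_coe, mem_filter, mem_product, Fintype.mem_piFinset, Fintype.mem_piFinset]
    exact ⟨⟨fun j => hM (q.1 j).2, fun j => hM (q.2 j).2⟩, hq.2⟩
  · intro q _ q' _ h2
    simp only [Prod.mk.injEq] at h2
    apply Prod.ext
    · funext j
      exact Subtype.ext (congrFun h2.1 j)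
    · funext j
      exact Subtype.ext (congrFun h2.2 j)

/-- Let `s`, `A`, `B`, `C`, `T`, `U` be fixed and let `N` be large. The weights are as in `Weights` (for example one
index, `α = 1`, `s = 1`, `Λ(n)` and `θ = 1`).

(1) Let `p` be fixed and let `v i`, `i ∈ ι`, be an ARBITRARY finite family of integers with `|v i| ≤ B N`, with an
additive energy of order `p` of at most `log ^ C N` times `#ι ^ (2 p) / N` (up to the power of the logarithm this is
the minimal size of the energy; the family may have as few as `N ^ (1 / p)` members). Then for all the `i`, up to a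
proportion of at most `1 / log ^ U N` of them, ALL the integers `z` with `|z - v i| ≤ log ^ A N` have the following
property: `|∑ n ≤ x, θ l n * (∏ i, Λ (a l i * n + h l i)) * μ (α l * n + z)| ≤ N / log ^ U N` for all `l` and all
`x ≤ B N / α l`.

(2) In particular this holds for `v m = c + f m`, where `f` is a fixed polynomial of degree `d ≥ 1` with integer
coefficients, `|c| ≤ B N`, `N / log ^ C N ≤ x ^ d ≤ B N`, and `m` ranges over an ARBITRARY set of at least
`x / log ^ C N` integers in `[1, x]`, for example over the primes in `[1, x]`. -/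
theorem result (s A B C T U : ℕ) :
    (∀ p : ℕ, ∃ N₀ : ℕ, ∀ N : ℕ, N₀ ≤ N → ∀ (ι : Type) [Fintype ι] (v : ι → ℤ),
      (∀ i, |v i| ≤ B * N) → (energy p v : ℝ) * N ≤ Real.log N ^ C * (Fintype.card ι : ℝ) ^ (2 * p) →
      ∀ (L : ℕ) (α : Fin L → ℕ) (a h : Fin L → Fin s → ℕ) (θ : Fin L → ℕ → ℂ), Weights N B T α a h θ →
        exceptions v (Real.log N ^ A) (Small (B * N) (N / Real.log N ^ U) α a h θ) ≤
          Fintype.card ι / Real.log N ^ U) ∧
    (∀ f : Polynomial ℤ, 1 ≤ f.natDegree → ∃ N₀ : ℕ, ∀ N : ℕ, N₀ ≤ N → ∀ x : ℕ,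
      N / Real.log N ^ C ≤ (x : ℝ) ^ f.natDegree → x ^ f.natDegree ≤ B * N →
      ∀ M : Finset ℕ, M ⊆ Icc 1 x → x / Real.log N ^ C ≤ (M.card : ℝ) → ∀ c : ℤ, |c| ≤ B * N →
      ∀ (L : ℕ) (α : Fin L → ℕ) (a h : Fin L → Fin s → ℕ) (θ : Fin L → ℕ → ℂ), Weights N B T α a h θ →
        exceptions (fun m : {m // m ∈ M} => c + f.eval (m : ℤ)) (Real.log N ^ A)
          (Small (B * N) (N / Real.log N ^ U) α a h θ) ≤ M.card / Real.log N ^ U) := by
  classical
  refine ⟨fun p => general s p A B C T U, fun f hf => ?_⟩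
  obtain ⟨p, B', hBB', N₁, h1⟩ := Pool.Agent.TH823.Fam.poly_family f hf B C
  obtain ⟨N₂, h2⟩ := Pool.Agent.H373R2.T7.ev_L' 1
  obtain ⟨N₀, h0⟩ := general s p A B' (C + 1 + C * (2 * p)) T U
  refine ⟨N₀ + N₁ + N₂ + 1, fun N hN x hx1 hx2 M hM hMc c hc L α a h θ hw => ?_⟩
  have hL1 := h2 N (by omega)
  have hL0 : 0 < Real.log N := by linarith
  have hN1 : 1 ≤ N := by omega
  obtain ⟨h3, h4⟩ := h1 N (by omega) x hx2 (by rwa [div_le_iff₀' (by positivity)] at hx1) c hc
  have h5 := h0 N (by omega) {m // m ∈ M} (fun m => c + f.eval (m : ℤ)) (fun i => h3 _ (hM i.2)) (by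
    have e1 := energy_sub p x (fun m => c + f.eval (m : ℤ)) M hM
    have e2 : (energy p (fun m : {m // m ∈ M} => c + f.eval (m : ℤ)) : ℝ) ≤
        (Pool.Agent.H373R2.T7.energy p x (fun m => c + f.eval (m : ℤ)) : ℝ) := by exact_mod_cast e1
    have e3 : (x : ℝ) ≤ Real.log N ^ C * M.card := by rwa [div_le_iff₀' (by positivity)] at hMc
    rw [Fintype.card_coe]
    calc (energy p (fun m : {m // m ∈ M} => c + f.eval (m : ℤ)) : ℝ) * N
        ≤ (Pool.Agent.H373R2.T7.energy p x (fun m => c + f.eval (m : ℤ)) : ℝ) * N :=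
          mul_le_mul_of_nonneg_right e2 (Nat.cast_nonneg _)
      _ ≤ Real.log N ^ (C + 1) * (x : ℝ) ^ (2 * p) := h4
      _ ≤ Real.log N ^ (C + 1) * (Real.log N ^ C * M.card) ^ (2 * p) := by
          apply mul_le_mul_of_nonneg_left _ (by positivity)
          exact pow_le_pow_left₀ (Nat.cast_nonneg _) e3 _
      _ = Real.log N ^ (C + 1 + C * (2 * p)) * (M.card : ℝ) ^ (2 * p) := by
          rw [mul_pow, ← pow_mul, pow_add]; ring) L α a h θ
    ⟨hw.1, hw.2.1, fun l i => ⟨(hw.2.2.1 l i).1.trans (Nat.pow_le_pow_right hN1 hBB'),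
      (hw.2.2.1 l i).2.trans (Nat.pow_le_pow_right hN1 hBB')⟩, hw.2.2.2⟩
  rw [Fintype.card_coe] at h5
  refine le_trans ?_ h5
  unfold exceptions
  apply Nat.cast_le.2
  apply card_le_card
  intro i hi
  rw [mem_filter] at hi ⊢
  obtain ⟨hi1, z, hz, hbad⟩ := hi
  refine ⟨hi1, z, hz, fun hgood => hbad ?_⟩
  intro l y hy
  exact hgood l y (hy.trans (Nat.mul_le_mul_right _ hBB'))

end Pool.Agent.Results.MP_0bfb7f_nt.ThinFamilies
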